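import Pool.Agent.helper29.NS.Spec2
import Pool.Agent.helper58.NS.IT

/-!
# MP_b9b054_an (project `ns:`), module `ns:UZ`
-/

namespace NS

open MeasureTheory Filter Topology Set

theorem UZ_wt_cont (l : ℝ) : Continuous (wt l) := by
  unfold wt rh
  fun_prop

theorem UZ_rh_cont : Continuous rh := by
  unfold rh
  fun_prop

theorem UZ_mem (z : ℝ × ℝ × ℝ) (R : ℝ) : z.2 ∈ Dsc 0 R ↔ rh z < R ^ 2 := by
  simp [Dsc, rh]

theorem UZ_heat_cont {ν : ℝ} {V : ℝ × ℝ × ℝ → ℝ} (hV : ContDiff ℝ 2 V) :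
    Continuous (heat ν V) := by
  have h1 := IT_dtc (hV.of_le (by norm_num : (1 : WithTop ℕ∞) ≤ 2))
  have h2 := IT_dxc (IT_dx1 hV)
  have h3 := IT_dyc (IT_dy1 hV)
  unfold heat
  fun_prop

theorem UZ_heat_cs {ν : ℝ} {V : ℝ × ℝ × ℝ → ℝ} (hc : HasCompactSupport V) :
    HasCompactSupport (heat ν V) := by
  have h1 : HasCompactSupport (dt V) := IT_cs _ hc
  have h2 : HasCompactSupport (dx (dx V)) := IT_cs _ (IT_cs _ hc)
  have h3 : HasCompactSupport (dy (dy V)) := IT_cs _ (IT_cs _ hc)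
  have h4 : HasCompactSupport (fun z => ν * (dx (dx V) z + dy (dy V) z)) :=
    (h2.add h3).mul_left
  exact h1.sub h4

/-- integrability of a weighted square -/
theorem UZ_int {e f : ℝ × ℝ × ℝ → ℝ} (he : Continuous e) (hf : Continuous f)
    (hc : HasCompactSupport f) : Integrable (fun z => e z * f z ^ 2) :=
  IT_int (he.mul (hf.pow 2)) ((IT_sq hc).mul_left)

theorem UZ_int2 {e f g : ℝ × ℝ × ℝ → ℝ} (he : Continuous e) (hf : Continuous f)
    (hc : HasCompactSupport f) (hg : Continuous g) (hgc : HasCompactSupport g) :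
    Integrable (fun z => e z * (f z ^ 2 + g z ^ 2)) := by
  have := (UZ_int he hf hc).add (UZ_int he hg hgc)
  refine this.congr (Eventually.of_forall fun z => ?_)
  simp only [Pi.add_apply]
  ring

/-- the six-term inequality -/
theorem UZ_six {K p q a b c d e f : ℝ} (h : |p| + |q| ≤ K * (|a| + |b| + |c| + |d| + |e| + |f|)) :
    p ^ 2 + q ^ 2 ≤ 6 * K ^ 2 * ((a ^ 2 + (c ^ 2 + d ^ 2)) + (b ^ 2 + (e ^ 2 + f ^ 2))) := by
  have h1 : (|p| + |q|) ^ 2 ≤ (K * (|a| + |b| + |c| + |d| + |e| + |f|)) ^ 2 :=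
    pow_le_pow_left₀ (by positivity) h 2
  have h2 : p ^ 2 + q ^ 2 ≤ (|p| + |q|) ^ 2 := by
    have := abs_nonneg p
    have := abs_nonneg q
    have := sq_abs p
    have := sq_abs q
    nlinarith [mul_nonneg (abs_nonneg p) (abs_nonneg q)]
  have h3 : (|a| + |b| + |c| + |d| + |e| + |f|) ^ 2
      ≤ 6 * (a ^ 2 + b ^ 2 + c ^ 2 + d ^ 2 + e ^ 2 + f ^ 2) := by
    rw [← sq_abs a, ← sq_abs b, ← sq_abs c, ← sq_abs d, ← sq_abs e, ← sq_abs f]
    generalize |a| = A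
    generalize |b| = B
    generalize |c| = C
    generalize |d| = D
    generalize |e| = E
    generalize |f| = F
    nlinarith [sq_nonneg (A - B), sq_nonneg (A - C), sq_nonneg (A - D), sq_nonneg (A - E),
      sq_nonneg (A - F), sq_nonneg (B - C), sq_nonneg (B - D), sq_nonneg (B - E),
      sq_nonneg (B - F), sq_nonneg (C - D), sq_nonneg (C - E), sq_nonneg (C - F),
      sq_nonneg (D - E), sq_nonneg (D - F), sq_nonneg (E - F)]
  have h4 : K ^ 2 * (|a| + |b| + |c| + |d| + |e| + |f|) ^ 2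
      ≤ K ^ 2 * (6 * (a ^ 2 + b ^ 2 + c ^ 2 + d ^ 2 + e ^ 2 + f ^ 2)) :=
    mul_le_mul_of_nonneg_left h3 (sq_nonneg K)
  rw [mul_pow] at h1
  nlinarith

/-- absorption and the limit `τ → ∞`, numerical part -/
theorem UZ_num {C K τ A B E1 H0 c0 : ℝ} (hτ1 : 1 ≤ τ) (hτK : 12 * C * K ^ 2 ≤ τ)
    (hA : 0 ≤ A) (hB : 0 ≤ B) (hE : 0 < E1) (hc : E1 * c0 ≤ A)
    (hmain : τ ^ 3 * A + τ * B ≤ C * (6 * K ^ 2 * (A + B) + E1 * H0)) :
    τ ^ 3 * c0 ≤ 2 * C * H0 := by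
  have h3 : τ ≤ τ ^ 3 := by
    calc τ = τ ^ 1 := (pow_one τ).symm
      _ ≤ τ ^ 3 := pow_le_pow_right₀ hτ1 (by norm_num)
  have hτ3 : 0 ≤ τ ^ 3 := by positivity
  have e1 : 12 * C * K ^ 2 * A ≤ τ ^ 3 * A :=
    mul_le_mul_of_nonneg_right (hτK.trans h3) hA
  have e2 : 12 * C * K ^ 2 * B ≤ τ * B := mul_le_mul_of_nonneg_right hτK hB
  have e3 : τ ^ 3 * (E1 * c0) ≤ τ ^ 3 * A := mul_le_mul_of_nonneg_left hc hτ3
  have e4 : 0 ≤ τ * B := mul_nonneg (by linarith) hB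
  have e5 : E1 * (τ ^ 3 * c0) ≤ E1 * (2 * C * H0) := by
    nlinarith
  exact le_of_mul_le_mul_left e5 hE

theorem UZ_cutoff_supp {χ : ℝ × ℝ × ℝ → ℝ} {R2 R : ℝ} (h0 : 0 < R2) (hR : R2 < R)
    (h : ∀ z, χ z ≠ 0 → |z.1| ≤ 2 ∧ rh z ≤ R2 ^ 2) : tsupport χ ⊆ univ ×ˢ Dsc 0 R := by
  have hcl : IsClosed {z : ℝ × ℝ × ℝ | rh z ≤ R2 ^ 2} :=
    isClosed_le UZ_rh_cont continuous_const
  intro z hz
  have : z ∈ {z : ℝ × ℝ × ℝ | rh z ≤ R2 ^ 2} :=
    closure_minimal (fun y hy => (h y hy).2) hcl hz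
  refine ⟨mem_univ _, (UZ_mem z R).2 ?_⟩
  have h2 : rh z ≤ R2 ^ 2 := this
  nlinarith

/-- local equality of `χ v` and `v` -/
theorem UZ_ev {χ v : ℝ × ℝ × ℝ → ℝ} {R1 : ℝ}
    (h : ∀ z : ℝ × ℝ × ℝ, |z.1| ≤ 1 → rh z ≤ R1 ^ 2 → χ z = 1) (z : ℝ × ℝ × ℝ)
    (h1 : |z.1| < 1) (h2 : rh z < R1 ^ 2) : (fun z => χ z * v z) =ᶠ[𝓝 z] v := by
  have ho1 : IsOpen {z : ℝ × ℝ × ℝ | |z.1| < 1} :=
    isOpen_lt (by fun_prop) continuous_const
  have ho2 : IsOpen {z : ℝ × ℝ × ℝ | rh z < R1 ^ 2} := isOpen_lt UZ_rh_cont continuous_const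
  filter_upwards [ho1.mem_nhds h1, ho2.mem_nhds h2] with y hy1 hy2
  rw [h y (le_of_lt hy1) (le_of_lt hy2), one_mul]

theorem UZ_evd {f g : ℝ × ℝ × ℝ → ℝ} {z : ℝ × ℝ × ℝ} (h : f =ᶠ[𝓝 z] g) :
    dt f =ᶠ[𝓝 z] dt g ∧ dx f =ᶠ[𝓝 z] dx g ∧ dy f =ᶠ[𝓝 z] dy g := by
  have h1 : fderiv ℝ f =ᶠ[𝓝 z] fderiv ℝ g := h.fderiv
  refine ⟨?_, ?_, ?_⟩
  · filter_upwards [h1] with y hy
    unfold dt; rw [hy]
  · filter_upwards [h1] with y hy
    unfold dx; rw [hy]
  · filter_upwards [h1] with y hy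
    unfold dy; rw [hy]

theorem UZ_evh {f g : ℝ × ℝ × ℝ → ℝ} {z : ℝ × ℝ × ℝ} (h : f =ᶠ[𝓝 z] g) (ν : ℝ) :
    f z = g z ∧ dx f z = dx g z ∧ dy f z = dy g z ∧ heat ν f z = heat ν g z := by
  obtain ⟨h1, h2, h3⟩ := UZ_evd h
  refine ⟨h.eq_of_nhds, h2.eq_of_nhds, h3.eq_of_nhds, ?_⟩
  unfold heat
  rw [h1.eq_of_nhds, (UZ_evd h2).2.1.eq_of_nhds, (UZ_evd h3).2.2.eq_of_nhds]

theorem UZ_split {f1 f2 f3 f4 f5 f6 : ℝ × ℝ × ℝ → ℝ} (i1 : Integrable f1) (i2 : Integrable f2)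
    (i3 : Integrable f3) (i4 : Integrable f4) (i5 : Integrable f5) (i6 : Integrable f6)
    (a b : ℝ) :
    ∫ z, (a * ((f1 z + f3 z) + (f2 z + f4 z)) + b * (f5 z + f6 z))
      = a * (((∫ z, f1 z) + ∫ z, f3 z) + ((∫ z, f2 z) + ∫ z, f4 z))
        + b * ((∫ z, f5 z) + ∫ z, f6 z) := by
  have j1 : Integrable (fun z => f1 z + f3 z) := i1.add i3
  have j2 : Integrable (fun z => f2 z + f4 z) := i2.add i4
  have j3 : Integrable (fun z => (f1 z + f3 z) + (f2 z + f4 z)) := j1.add j2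
  have j4 : Integrable (fun z => f5 z + f6 z) := i5.add i6
  rw [integral_add (j3.const_mul a) (j4.const_mul b), integral_const_mul, integral_const_mul,
    integral_add j1 j2, integral_add i1 i3, integral_add i2 i4, integral_add i5 i6]

/-- the pointwise estimate -/
theorem UZ_point {v w χ : ℝ × ℝ × ℝ → ℝ} {R R1 l ν K τ : ℝ} (hR1 : 0 < R1) (hR : R1 < R)
    (hl : 0 < l) (hτ : 0 ≤ τ)
    (h1 : ∀ z : ℝ × ℝ × ℝ, |z.1| ≤ 1 → rh z ≤ R1 ^ 2 → χ z = 1)
    (hin : ∀ t, ∀ q ∈ Dsc 0 R, |heat ν v (t, q)| + |heat ν w (t, q)| ≤ K * (|v (t, q)| + |w (t, q)|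
      + |dx v (t, q)| + |dy v (t, q)| + |dx w (t, q)| + |dy w (t, q)|)) (z : ℝ × ℝ × ℝ) :
    Real.exp (2 * τ * wt l z) * heat ν (fun z => χ z * v z) z ^ 2
      + Real.exp (2 * τ * wt l z) * heat ν (fun z => χ z * w z) z ^ 2
    ≤ 6 * K ^ 2 * ((Real.exp (2 * τ * wt l z) * (χ z * v z) ^ 2
        + Real.exp (2 * τ * wt l z) * (dx (fun z => χ z * v z) z ^ 2
          + dy (fun z => χ z * v z) z ^ 2))
      + (Real.exp (2 * τ * wt l z) * (χ z * w z) ^ 2
        + Real.exp (2 * τ * wt l z) * (dx (fun z => χ z * w z) z ^ 2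
          + dy (fun z => χ z * w z) z ^ 2)))
      + Real.exp (2 * τ * Real.exp (-(l * R1 ^ 2))) * (heat ν (fun z => χ z * v z) z ^ 2
        + heat ν (fun z => χ z * w z) z ^ 2) := by
  set e := Real.exp (2 * τ * wt l z) with he
  have hepos : 0 < e := Real.exp_pos _
  set E1 := Real.exp (2 * τ * Real.exp (-(l * R1 ^ 2))) with hE1
  have hE1pos : 0 < E1 := Real.exp_pos _
  by_cases hz : |z.1| < 1 ∧ rh z < R1 ^ 2
  · obtain ⟨v1, v2, v3, v4⟩ := UZ_evh (UZ_ev (v := v) h1 z hz.1 hz.2) ν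
    obtain ⟨w1, w2, w3, w4⟩ := UZ_evh (UZ_ev (v := w) h1 z hz.1 hz.2) ν
    rw [v1, v2, v3, v4, w1, w2, w3, w4]
    have hzR : z.2 ∈ Dsc 0 R := by
      rw [UZ_mem]
      have : R1 ^ 2 < R ^ 2 := by nlinarith
      exact hz.2.trans this
    have h6 := UZ_six (hin z.1 z.2 hzR)
    simp only [Prod.mk.eta] at h6
    have h7 := mul_le_mul_of_nonneg_left h6 hepos.le
    have h8 : 0 ≤ E1 * (heat ν v z ^ 2 + heat ν w z ^ 2) := by positivity
    nlinarith
  · have hw1 : wt l z ≤ Real.exp (-(l * R1 ^ 2)) := by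
      rw [not_and_or] at hz
      unfold wt
      rcases hz with hz | hz
      · have h2 : 1 ≤ z.1 ^ 2 := by
          rw [← sq_abs]
          have := not_lt.1 hz
          nlinarith
        have h3 : Real.exp (-(l * rh z)) ≤ 1 := by
          rw [Real.exp_le_one_iff]
          have : 0 ≤ rh z := by unfold rh; positivity
          have := mul_nonneg hl.le this
          linarith
        have h4 := Real.exp_pos (-(l * R1 ^ 2))
        linarith
      · have h2 : Real.exp (-(l * rh z)) ≤ Real.exp (-(l * R1 ^ 2)) := by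
          apply Real.exp_le_exp.2
          have := mul_le_mul_of_nonneg_left (not_lt.1 hz) hl.le
          linarith
        have h3 := sq_nonneg z.1
        linarith
    have hee : e ≤ E1 := by
      apply Real.exp_le_exp.2
      exact mul_le_mul_of_nonneg_left hw1 (by linarith)
    have h2 : 0 ≤ heat ν (fun z => χ z * v z) z ^ 2 + heat ν (fun z => χ z * w z) z ^ 2 := by
      positivity
    have h3 := mul_le_mul_of_nonneg_right hee h2
    have h4 : 0 ≤ 6 * K ^ 2 * ((e * (χ z * v z) ^ 2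
        + e * (dx (fun z => χ z * v z) z ^ 2
          + dy (fun z => χ z * v z) z ^ 2))
      + (e * (χ z * w z) ^ 2
        + e * (dx (fun z => χ z * w z) z ^ 2
          + dy (fun z => χ z * w z) z ^ 2))) := by positivity
    nlinarith

theorem UZ_aux (hCE : ∀ (ν l ε R : ℝ), 0 < ν → 0 < l → 0 < ε → ε < R → 2 ≤ l * ε ^ 2 →
    ∃ C : ℝ, ∃ τ0 : ℝ, 0 < C ∧ 1 ≤ τ0 ∧ ∀ τ, τ0 ≤ τ → ∀ w : ℝ × ℝ × ℝ → ℝ, ContDiff ℝ 2 w →
    HasCompactSupport w → (∀ z, w z ≠ 0 → |z.1| ≤ 2 ∧ ε ^ 2 ≤ rh z ∧ rh z ≤ R ^ 2) →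
    τ ^ 3 * (∫ z, Real.exp (2 * τ * wt l z) * w z ^ 2)
      + τ * (∫ z, Real.exp (2 * τ * wt l z) * (dx w z ^ 2 + dy w z ^ 2))
    ≤ C * ∫ z, Real.exp (2 * τ * wt l z) * heat ν w z ^ 2)
    (hCO : CO_stmt) (hCX : CX_stmt) : UZ_stmt := by
  intro R ε ν K v w hε hεR hν hv hw hin h0 q0 hq0
  by_contra hne
  set r := max (Real.sqrt (rh (0, q0))) ε with hr
  have hq0' : rh (0, q0) < R ^ 2 := (UZ_mem (0, q0) R).1 hq0
  have hR : 0 < R := hε.trans hεR
  have hrR : r < R := by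
    rw [hr, max_lt_iff]
    refine ⟨?_, hεR⟩
    rw [Real.sqrt_lt' hR]
    exact hq0'
  have hεr : ε ≤ r := le_max_right _ _
  have hqr : rh (0, q0) ≤ r ^ 2 := by
    rw [← Real.sqrt_le_left (by linarith)]
    exact le_max_left _ _
  obtain ⟨χ, c1, c2, c3, c4, c5⟩ := hCO (r + (R - r) / 3) (r + 2 * (R - r) / 3) (by linarith)
    (by linarith)
  set R1 := r + (R - r) / 3 with hR1
  set R2 := r + 2 * (R - r) / 3 with hR2
  have hR1pos : 0 < R1 := by linarith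
  have hR12 : R1 < R2 := by linarith
  have hR2R : R2 < R := by linarith
  have hts := UZ_cutoff_supp (by linarith) hR2R c5
  obtain ⟨V1, V2, -, -⟩ := hCX R ν χ v c1 c2 hts hv
  obtain ⟨W1, W2, -, -⟩ := hCX R ν χ w c1 c2 hts hw
  set V : ℝ × ℝ × ℝ → ℝ := fun z => χ z * v z with hV
  set W : ℝ × ℝ × ℝ → ℝ := fun z => χ z * w z with hW
  have hεrh : ∀ z : ℝ × ℝ × ℝ, ¬ (v z = 0 ∧ w z = 0) → ε ^ 2 ≤ rh z := by
    intro z hz
    by_contra hlt
    apply hz
    have := h0 z.1 z.2 ((UZ_mem z ε).2 (not_le.1 hlt))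
    simpa using this
  have sV : ∀ z, V z ≠ 0 → |z.1| ≤ 2 ∧ ε ^ 2 ≤ rh z ∧ rh z ≤ R2 ^ 2 := by
    intro z hz
    have h1 : χ z ≠ 0 := left_ne_zero_of_mul hz
    have h2 : v z ≠ 0 := right_ne_zero_of_mul hz
    exact ⟨(c5 z h1).1, hεrh z (fun h => h2 h.1), (c5 z h1).2⟩
  have sW : ∀ z, W z ≠ 0 → |z.1| ≤ 2 ∧ ε ^ 2 ≤ rh z ∧ rh z ≤ R2 ^ 2 := by
    intro z hz
    have h1 : χ z ≠ 0 := left_ne_zero_of_mul hz
    have h2 : w z ≠ 0 := right_ne_zero_of_mul hz
    exact ⟨(c5 z h1).1, hεrh z (fun h => h2 h.2), (c5 z h1).2⟩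
  have hl : (0 : ℝ) < 2 / ε ^ 2 := by positivity
  have hlε : 2 ≤ 2 / ε ^ 2 * ε ^ 2 := by
    rw [div_mul_cancel₀ _ (by positivity)]
  obtain ⟨C, τ0, hC, hτ0, hcarl⟩ := hCE ν (2 / ε ^ 2) ε R2 hν hl hε (by linarith) hlε
  set l := 2 / ε ^ 2 with hldef
  set β := Real.exp (-(l * R1 ^ 2)) with hβ
  set H0 := (∫ z, heat ν V z ^ 2) + ∫ z, heat ν W z ^ 2 with hH0
  have hVc : Continuous V := V1.continuous
  have hWc : Continuous W := W1.continuous
  have hgc : Continuous (fun z => max (wt l z - β) 0 * (V z ^ 2 + W z ^ 2)) :=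
    (((UZ_wt_cont l).sub continuous_const).max continuous_const).mul
      ((hVc.pow 2).add (hWc.pow 2))
  have hgs : HasCompactSupport (fun z => max (wt l z - β) 0 * (V z ^ 2 + W z ^ 2)) :=
    ((IT_sq V2).add (IT_sq W2)).mul_left
  set c0 := ∫ z, max (wt l z - β) 0 * (V z ^ 2 + W z ^ 2) with hc0
  have hc0pos : 0 < c0 := by
    refine hgc.integral_pos_of_hasCompactSupport_nonneg_nonzero (x := ((0 : ℝ), q0)) hgs ?_ ?_
    · intro z
      exact mul_nonneg (le_max_right _ _) (by positivity)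
    · have hχ : χ (0, q0) = 1 := by
        apply c4
        · simp
        · refine hqr.trans ?_
          exact pow_le_pow_left₀ (by linarith) (by linarith) 2
      have h1 : 0 < wt l (0, q0) - β := by
        rw [hβ]
        unfold wt
        have : l * rh (0, q0) < l * R1 ^ 2 := by
          apply mul_lt_mul_of_pos_left _ hl
          refine hqr.trans_lt ?_
          nlinarith
        have := Real.exp_lt_exp.2 (neg_lt_neg this)
        simp only [ne_eq, OfNat.ofNat_ne_zero, not_false_eq_true, zero_pow, sub_zero]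
        linarith
      have h2 : V (0, q0) = v (0, q0) := by simp [hV, hχ]
      have h3 : W (0, q0) = w (0, q0) := by simp [hW, hχ]
      rw [max_eq_left h1.le, h2, h3]
      refine mul_ne_zero h1.ne' ?_
      intro h4
      apply hne
      have h5 : v (0, q0) ^ 2 = 0 := by nlinarith [sq_nonneg (v (0, q0)), sq_nonneg (w (0, q0))]
      have h6 : w (0, q0) ^ 2 = 0 := by nlinarith [sq_nonneg (v (0, q0)), sq_nonneg (w (0, q0))]
      exact ⟨pow_eq_zero_iff (two_ne_zero) |>.1 h5, pow_eq_zero_iff (two_ne_zero) |>.1 h6⟩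
  have dVx : Continuous (dx V) := (IT_dx1 V1).continuous
  have dVy : Continuous (dy V) := (IT_dy1 V1).continuous
  have dWx : Continuous (dx W) := (IT_dx1 W1).continuous
  have dWy : Continuous (dy W) := (IT_dy1 W1).continuous
  have sVx : HasCompactSupport (dx V) := IT_cs _ V2
  have sVy : HasCompactSupport (dy V) := IT_cs _ V2
  have sWx : HasCompactSupport (dx W) := IT_cs _ W2
  have sWy : HasCompactSupport (dy W) := IT_cs _ W2
  have hHV : Integrable (fun z => heat ν V z ^ 2) := by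
    have := UZ_int (continuous_const (y := (1 : ℝ))) (UZ_heat_cont (ν := ν) V1) (UZ_heat_cs V2)
    simpa using this
  have hHW : Integrable (fun z => heat ν W z ^ 2) := by
    have := UZ_int (continuous_const (y := (1 : ℝ))) (UZ_heat_cont (ν := ν) W1) (UZ_heat_cs W2)
    simpa using this
  have key : ∀ τ, τ0 ≤ τ → 12 * C * K ^ 2 ≤ τ → τ ^ 3 * c0 ≤ 2 * C * H0 := by
    intro τ hτ hτK
    have hτ1 : 1 ≤ τ := hτ0.trans hτ
    have hec : Continuous (fun z => Real.exp (2 * τ * wt l z)) :=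
      Real.continuous_exp.comp (continuous_const.mul (UZ_wt_cont l))
    have i1 := UZ_int hec hVc V2
    have i2 := UZ_int hec hWc W2
    have i3 := UZ_int2 hec dVx sVx dVy sVy
    have i4 := UZ_int2 hec dWx sWx dWy sWy
    have i5 := UZ_int hec (UZ_heat_cont (ν := ν) V1) (UZ_heat_cs V2)
    have i6 := UZ_int hec (UZ_heat_cont (ν := ν) W1) (UZ_heat_cs W2)
    have C1 := hcarl τ hτ V V1 V2 sV
    have C2 := hcarl τ hτ W W1 W2 sW
    have hpt := UZ_point (τ := τ) hR1pos (by linarith : R1 < R) hl (by linarith) c4 hin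
    have hI : ∫ z, (Real.exp (2 * τ * wt l z) * heat ν V z ^ 2
        + Real.exp (2 * τ * wt l z) * heat ν W z ^ 2)
        ≤ ∫ z, (6 * K ^ 2 * ((Real.exp (2 * τ * wt l z) * V z ^ 2
        + Real.exp (2 * τ * wt l z) * (dx V z ^ 2 + dy V z ^ 2))
      + (Real.exp (2 * τ * wt l z) * W z ^ 2
        + Real.exp (2 * τ * wt l z) * (dx W z ^ 2 + dy W z ^ 2)))
      + Real.exp (2 * τ * β) * (heat ν V z ^ 2 + heat ν W z ^ 2)) := by
      apply integral_mono (i5.add i6)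
      · exact (((i1.add i3).add (i2.add i4)).const_mul _).add ((hHV.add hHW).const_mul _)
      · intro z
        exact hpt z
    rw [integral_add i5 i6, UZ_split i1 i2 i3 i4 hHV hHW] at hI
    have hlow : Real.exp (2 * τ * β) * c0 ≤ (∫ z, Real.exp (2 * τ * wt l z) * V z ^ 2)
        + ∫ z, Real.exp (2 * τ * wt l z) * W z ^ 2 := by
      rw [← integral_add i1 i2, hc0, ← integral_const_mul]
      apply integral_mono ((IT_int hgc hgs).const_mul _) (i1.add i2)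
      intro z
      simp only [Pi.add_apply]
      have h1 : Real.exp (2 * τ * β) * max (wt l z - β) 0 ≤ Real.exp (2 * τ * wt l z) := by
        rcases le_total (wt l z - β) 0 with h2 | h2
        · rw [max_eq_right h2, mul_zero]
          exact (Real.exp_pos _).le
        · rw [max_eq_left h2]
          have h3 : wt l z - β ≤ Real.exp (2 * τ * (wt l z - β)) := by
            have h4 := Real.add_one_le_exp (2 * τ * (wt l z - β))
            nlinarith
          have h5 := mul_le_mul_of_nonneg_left h3 (Real.exp_pos (2 * τ * β)).le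
          rw [← Real.exp_add] at h5
          have h6 : 2 * τ * β + 2 * τ * (wt l z - β) = 2 * τ * wt l z := by ring
          rwa [h6] at h5
      have h2 : 0 ≤ V z ^ 2 + W z ^ 2 := by positivity
      have h3 := mul_le_mul_of_nonneg_right h1 h2
      nlinarith
    refine UZ_num (E1 := Real.exp (2 * τ * β))
      (A := (∫ z, Real.exp (2 * τ * wt l z) * V z ^ 2)
        + ∫ z, Real.exp (2 * τ * wt l z) * W z ^ 2)
      (B := (∫ z, Real.exp (2 * τ * wt l z) * (dx V z ^ 2 + dy V z ^ 2))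
        + ∫ z, Real.exp (2 * τ * wt l z) * (dx W z ^ 2 + dy W z ^ 2)) hτ1 hτK ?_ ?_
      (Real.exp_pos _) hlow ?_
    · exact add_nonneg (integral_nonneg fun z => by positivity)
        (integral_nonneg fun z => by positivity)
    · exact add_nonneg (integral_nonneg fun z => by positivity)
        (integral_nonneg fun z => by positivity)
    · have h1 := mul_le_mul_of_nonneg_left hI hC.le
      rw [hH0]
      nlinarith
  have hH0n : 0 ≤ H0 := add_nonneg (integral_nonneg fun z => by positivity)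
    (integral_nonneg fun z => by positivity)
  have hτ := key (max (max τ0 (12 * C * K ^ 2)) (2 * C * H0 / c0 + 1))
    ((le_max_left _ _).trans (le_max_left _ _)) ((le_max_right _ _).trans (le_max_left _ _))
  set τ := max (max τ0 (12 * C * K ^ 2)) (2 * C * H0 / c0 + 1) with hτdef
  have hτ1 : 1 ≤ τ := hτ0.trans ((le_max_left _ _).trans (le_max_left _ _))
  have hτ2 : 2 * C * H0 / c0 + 1 ≤ τ := le_max_right _ _
  have hτ3 : τ ≤ τ ^ 3 := by
    calc τ = τ ^ 1 := (pow_one τ).symm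
      _ ≤ τ ^ 3 := pow_le_pow_right₀ hτ1 (by norm_num)
  have h1 : 2 * C * H0 < τ * c0 := by
    rw [← div_lt_iff₀ hc0pos]
    linarith
  have h2 : τ * c0 ≤ τ ^ 3 * c0 := mul_le_mul_of_nonneg_right hτ3 hc0pos.le
  linarith

theorem UZ (hCE : CE_stmt) (hCO : CO_stmt) (hCX : CX_stmt) : UZ_stmt := UZ_aux hCE hCO hCX

end NS
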