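import Pool.Agent.helper29.NS.Spec2

/-!
# MP_b9b054_an (project `ns:`), module `ns:FS`
-/

namespace NS

open MeasureTheory Filter Topology Set

theorem FS_ev {Ω : Set (ℝ × ℝ)} (hO : IsOpen Ω) {f g : ℝ × ℝ × ℝ → ℝ}
    (h : ∀ t, ∀ q ∈ Ω, f (t, q) = g (t, q)) (t : ℝ) (q : ℝ × ℝ) (hq : q ∈ Ω) :
    f =ᶠ[𝓝 (t, q)] g := by
  have hU : IsOpen ((univ : Set ℝ) ×ˢ Ω) := isOpen_univ.prod hO
  filter_upwards [hU.mem_nhds (by exact ⟨mem_univ _, hq⟩)] with z hz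
  exact h z.1 z.2 hz.2

theorem FS_d {Ω : Set (ℝ × ℝ)} (hO : IsOpen Ω) {f g : ℝ × ℝ × ℝ → ℝ}
    (h : ∀ t, ∀ q ∈ Ω, f (t, q) = g (t, q)) (t : ℝ) (q : ℝ × ℝ) (hq : q ∈ Ω) :
    dt f (t, q) = dt g (t, q) ∧ dx f (t, q) = dx g (t, q) ∧ dy f (t, q) = dy g (t, q) := by
  have := (FS_ev hO h t q hq).fderiv_eq (𝕜 := ℝ)
  unfold dt dx dy
  rw [this]
  exact ⟨rfl, rfl, rfl⟩

theorem FS_sub (f g : ℝ × ℝ × ℝ → ℝ) (hf : Differentiable ℝ f) (hg : Differentiable ℝ g)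
    (z : ℝ × ℝ × ℝ) : dx (fun z => f z - g z) z = dx f z - dx g z ∧
      dy (fun z => f z - g z) z = dy f z - dy g z := by
  have : fderiv ℝ (fun z => f z - g z) z = fderiv ℝ f z - fderiv ℝ g z :=
    fderiv_fun_sub (hf z) (hg z)
  unfold dx dy
  rw [this]
  exact ⟨rfl, rfl⟩

theorem FS_fd (f : ℝ × ℝ → ℝ) (q : ℝ × ℝ) (h1 : px f q = 0) (h2 : py f q = 0) :
    fderiv ℝ f q = 0 := by
  ext
  · simpa [px] using h1
  · simpa [py] using h2

theorem FS_press (hSL : SL_stmt) (hCR : CR_stmt) {Ω : Set (ℝ × ℝ)} (hO : IsOpen Ω)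
    (hc : IsConnected Ω) (hb : Bornology.IsBounded Ω) {ν : ℝ} {g h : ℝ × ℝ → ℝ} {B B' : ℝ}
    {a1 b1 p1 a2 b2 p2 : ℝ × ℝ × ℝ → ℝ} (r1 : Reg B a1 b1 p1) (r2 : Reg B' a2 b2 p2)
    (s1 : Sol Ω ν g h univ a1 b1 p1) (s2 : Sol Ω ν g h univ a2 b2 p2)
    (hv : ∀ t, ∀ q ∈ Ω, a1 (t, q) = a2 (t, q) ∧ b1 (t, q) = b2 (t, q)) :
    ∀ t, ∀ q ∈ Ω, p1 (t, q) = p2 (t, q) := by
  have c1 : ContDiff ℝ 2 p1 := by exact_mod_cast hCR 2 B p1 r1.rp
  have c2 : ContDiff ℝ 2 p2 := by exact_mod_cast hCR 2 B' p2 r2.rp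
  have d1 : Differentiable ℝ p1 := c1.differentiable (by norm_num)
  have d2 : Differentiable ℝ p2 := c2.differentiable (by norm_num)
  have ha : ∀ t, ∀ q ∈ Ω, a1 (t, q) = a2 (t, q) := fun t q hq => (hv t q hq).1
  have hb' : ∀ t, ∀ q ∈ Ω, b1 (t, q) = b2 (t, q) := fun t q hq => (hv t q hq).2
  have hax : ∀ t, ∀ q ∈ Ω, dx a1 (t, q) = dx a2 (t, q) := fun t q hq => (FS_d hO ha t q hq).2.1
  have hay : ∀ t, ∀ q ∈ Ω, dy a1 (t, q) = dy a2 (t, q) := fun t q hq => (FS_d hO ha t q hq).2.2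
  have hbx : ∀ t, ∀ q ∈ Ω, dx b1 (t, q) = dx b2 (t, q) := fun t q hq => (FS_d hO hb' t q hq).2.1
  have hby : ∀ t, ∀ q ∈ Ω, dy b1 (t, q) = dy b2 (t, q) := fun t q hq => (FS_d hO hb' t q hq).2.2
  have hpx : ∀ t, ∀ q ∈ Ω, dx p1 (t, q) = dx p2 (t, q) := by
    intro t q hq
    have e1 := s1.mx t (mem_univ _) q hq
    have e2 := s2.mx t (mem_univ _) q hq
    rw [ha t q hq, hb' t q hq, hax t q hq, hay t q hq, (FS_d hO ha t q hq).1,
      (FS_d hO hax t q hq).2.1, (FS_d hO hay t q hq).2.2] at e1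
    linarith
  have hpy : ∀ t, ∀ q ∈ Ω, dy p1 (t, q) = dy p2 (t, q) := by
    intro t q hq
    have e1 := s1.my t (mem_univ _) q hq
    have e2 := s2.my t (mem_univ _) q hq
    rw [ha t q hq, hb' t q hq, hbx t q hq, hby t q hq, (FS_d hO hb' t q hq).1,
      (FS_d hO hbx t q hq).2.1, (FS_d hO hby t q hq).2.2] at e1
    linarith
  intro t
  obtain ⟨q0, hq0⟩ := hc.nonempty
  have dd : Differentiable ℝ (fun z => p1 z - p2 z) := d1.fun_sub d2
  have hdd : Differentiable ℝ (fun q : ℝ × ℝ => p1 (t, q) - p2 (t, q)) :=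
    dd.comp ((differentiable_const t).prodMk differentiable_id)
  have hconst : ∀ q ∈ Ω, p1 (t, q) - p2 (t, q) = p1 (t, q0) - p2 (t, q0) := by
    intro q hq
    refine hO.is_const_of_fderiv_eq_zero (𝕜 := ℝ) hc.isPreconnected
      (f := fun q : ℝ × ℝ => p1 (t, q) - p2 (t, q)) hdd.differentiableOn ?_ hq hq0
    intro z hz
    obtain ⟨k1, k2, -⟩ := hSL (fun z => p1 z - p2 z) t z (dd _)
    apply FS_fd
    · rw [k1, (FS_sub p1 p2 d1 d2 _).1, hpx t z hz, sub_self]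
    · rw [k2, (FS_sub p1 p2 d1 d2 _).2, hpy t z hz, sub_self]
  have hfin : volume Ω ≠ ⊤ := hb.measure_lt_top.ne
  have hpos : 0 < (volume Ω).toReal :=
    ENNReal.toReal_pos (hO.measure_pos volume hc.nonempty).ne' hfin
  have : IsFiniteMeasure (volume.restrict Ω) := ⟨by
    rw [Measure.restrict_apply_univ]; exact hb.measure_lt_top⟩
  have hint : ∀ (B : ℝ) (p : ℝ × ℝ × ℝ → ℝ), (∀ z, |p z| ≤ B) → Continuous p →
      IntegrableOn (fun q => p (t, q)) Ω := by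
    intro B p hB hp
    refine Integrable.of_bound (C := B) ?_ (Eventually.of_forall fun q => ?_)
    · exact (hp.comp (Continuous.prodMk_right t)).aestronglyMeasurable
    · simpa using hB (t, q)
  have i1 := hint B p1 r1.rp.1 d1.continuous
  have i2 := hint B' p2 r2.rp.1 d2.continuous
  have e0 : ∫ q in Ω, (p1 (t, q) - p2 (t, q)) = 0 := by
    rw [integral_sub i1 i2, s1.mn t (mem_univ _), s2.mn t (mem_univ _), sub_zero]
  have e1 : ∫ q in Ω, (p1 (t, q) - p2 (t, q)) = ∫ q in Ω, (p1 (t, q0) - p2 (t, q0)) :=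
    setIntegral_congr_fun hO.measurableSet (fun q hq => hconst q hq)
  rw [e1, setIntegral_const, smul_eq_mul] at e0
  have e2 : p1 (t, q0) - p2 (t, q0) = 0 := by
    rcases mul_eq_zero.1 e0 with h0 | h0
    · exact absurd h0 hpos.ne'
    · exact h0
  intro q hq
  have := hconst q hq
  linarith

theorem FS (hSL : SL_stmt) (hCR : CR_stmt) (hST : ST_stmt) (hP3 : P3_stmt) : FS_stmt := by
  intro Ω ν g h hO hc hb hG hfin
  classical
  have key : ∀ y : Lp ℝ 2 (volume.restrict Ω), (∃ n, (fun _ : ℝ => y) ∈ PCurves Ω ν g h n) →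
      ∃ (B : ℝ) (a b p : ℝ × ℝ × ℝ → ℝ), Reg B a b p ∧ Sol Ω ν g h univ a b p ∧
        (∀ t, y =ᵐ[volume.restrict Ω] fun q => p (t, q)) ∧
        ∀ t, ∀ q ∈ Ω, a (t, q) = a (0, q) ∧ b (t, q) = b (0, q) := by
    rintro y ⟨n, -, a, b, p, hR, hS, hy⟩
    refine ⟨n, a, b, p, hR, hS, hy, ?_⟩
    have hcp : Continuous p := (hCR 2 n p hR.rp).continuous
    have hpp : ∀ t t', ∀ q ∈ Ω, p (t, q) = p (t', q) := by
      intro t t' q hq
      exact hP3 Ω hO (fun q => p (t, q)) (fun q => p (t', q))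
        (hcp.comp (Continuous.prodMk_right t)) (hcp.comp (Continuous.prodMk_right t'))
        ((hy t).symm.trans (hy t')) q hq
    intro t q hq
    obtain ⟨hR', hS'⟩ := hST Ω ν g h univ univ t n a b p hR hS (fun _ _ => mem_univ _)
    have := hG n _ _ _ a b p hR' hR hS' hS (fun s q hq => hpp _ _ q hq) 0 q hq
    simpa using this
  choose! B a b p hR hS hy hst using key
  refine Set.Finite.of_injOn (f := fun y (q : Ω) => (a y (0, (q : ℝ × ℝ)), b y (0, (q : ℝ × ℝ))))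
    (t := Stat Ω ν g h) ?_ ?_ hfin
  · intro y hyS
    refine ⟨B y, a y, b y, p y, hR y hyS, hS y hyS, ?_⟩
    intro t q
    have := hst y hyS t q q.2
    rw [this.1, this.2]
  · intro y hyS y' hyS' hyy
    have hv : ∀ t, ∀ q ∈ Ω, a y (t, q) = a y' (t, q) ∧ b y (t, q) = b y' (t, q) := by
      intro t q hq
      have h1 := congrFun hyy ⟨q, hq⟩
      simp only [Prod.mk.injEq] at h1
      rw [(hst y hyS t q hq).1, (hst y hyS t q hq).2, (hst y' hyS' t q hq).1,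
        (hst y' hyS' t q hq).2]
      exact h1
    have hp := FS_press hSL hCR hO hc hb (hR y hyS) (hR y' hyS') (hS y hyS) (hS y' hyS') hv
    apply Lp.ext
    refine (hy y hyS 0).trans (EventuallyEq.trans ?_ (hy y' hyS' 0).symm)
    filter_upwards [ae_restrict_mem hO.measurableSet] with q hq
    exact hp 0 q hq

end NS
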