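import Pool.Agent.helper29.NS.Spec2

/-!
ns:TG, tangential derivative of a function vanishing on the boundary
-/

namespace NS

open MeasureTheory Filter Topology Set

theorem TG_frontier {Ω : Set (ℝ × ℝ)} {c : ℝ × ℝ} {θ δ : ℝ} {f : ℝ → ℝ} (hΩ : IsOpen Ω)
    (hC : Chart Ω c θ δ f) {s : ℝ} (hs : |s| < δ) (hf : |f s| < δ) : pt θ c s (f s) ∈ frontier Ω := by
  rw [frontier, hΩ.interior_eq]
  refine ⟨?_, fun h => ?_⟩
  · have hcont : Continuous fun r : ℝ => pt θ c s r := by
      unfold pt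
      fun_prop
    have h1 : Tendsto (fun r : ℝ => pt θ c s r) (𝓝[>] (f s)) (𝓝 (pt θ c s (f s))) :=
      (hcont.tendsto (f s)).mono_left nhdsWithin_le_nhds
    refine mem_closure_of_tendsto h1 ?_
    have h2 : ∀ᶠ r in 𝓝[>] (f s), |r| < δ :=
      nhdsWithin_le_nhds ((continuous_abs.tendsto (f s)).eventually (gt_mem_nhds hf))
    filter_upwards [h2, self_mem_nhdsWithin] with r hr1 hr2
    exact (hC.graph s r hs hr1).mpr hr2
  · exact lt_irrefl _ ((hC.graph s (f s) hs hf).mp h)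

theorem TG_fderiv (F : ℝ × ℝ × ℝ → ℝ) (z : ℝ × ℝ × ℝ) (u v : ℝ) :
    fderiv ℝ F z (0, (u, v)) = u * dx F z + v * dy F z := by
  have e : ((0, (u, v)) : ℝ × ℝ × ℝ) = u • ((0, 1, 0) : ℝ × ℝ × ℝ) + v • ((0, 0, 1) : ℝ × ℝ × ℝ) := by
    simp
  rw [e, map_add, map_smul, map_smul]
  rfl

theorem TG : TG_stmt := by
  intro Ω c θ δ f hΩ hC V hV F hF hz
  have hfd : Differentiable ℝ f := hC.smooth.differentiable (by norm_num)
  -- a small interval
  have hc1 : Continuous fun s : ℝ => pt θ c s (f s) := by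
    have := hfd.continuous
    unfold pt
    fun_prop
  have h0 : pt θ c 0 (f 0) = c := by
    rw [hC.f0]
    simp [pt]
  have hV' : ∀ᶠ s in 𝓝 (0 : ℝ), pt θ c s (f s) ∈ V := by
    have h1 := hc1.tendsto 0
    rw [h0] at h1
    exact h1 hV
  have hf' : ∀ᶠ s in 𝓝 (0 : ℝ), |f s| < δ := by
    have h1 : Tendsto (fun s => |f s|) (𝓝 0) (𝓝 |f 0|) := (continuous_abs.comp hfd.continuous).tendsto 0
    rw [hC.f0, abs_zero] at h1
    exact h1.eventually (gt_mem_nhds hC.pos)
  obtain ⟨η, hη, hball⟩ := Metric.eventually_nhds_iff.mp (hV'.and hf')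
  have hfr : ∀ s, |s| < min η δ → pt θ c s (f s) ∈ frontier Ω ∩ V := by
    intro s hs
    have h1 : dist s 0 < η := by
      rw [Real.dist_eq, sub_zero]
      exact lt_of_lt_of_le hs (min_le_left _ _)
    obtain ⟨h2, h3⟩ := hball h1
    exact ⟨TG_frontier hΩ hC (lt_of_lt_of_le hs (min_le_right _ _)) h3, h2⟩
  refine ⟨min η δ, lt_min hη hC.pos, fun t s hs => ⟨?_, ?_⟩⟩
  · -- time derivative
    set q := pt θ c s (f s) with hq
    have h1 : HasDerivAt (fun t' : ℝ => ((t', q) : ℝ × ℝ × ℝ)) (1, 0) t :=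
      (hasDerivAt_id t).prodMk (hasDerivAt_const t q)
    have h2 : HasDerivAt (fun t' : ℝ => F (t', q)) (fderiv ℝ F (t, q) (1, 0)) t :=
      (hF (t, q)).hasFDerivAt.comp_hasDerivAt t h1
    have h3 : (fun t' : ℝ => F (t', q)) = fun _ => 0 := funext fun t' => hz t' q (hfr s hs)
    rw [h3] at h2
    exact h2.unique (hasDerivAt_const t 0)
  · have hfs : HasDerivAt f (deriv f s) s := (hfd s).hasDerivAt
    have h1 : HasDerivAt (fun s : ℝ => ((t, pt θ c s (f s)) : ℝ × ℝ × ℝ))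
        (0, (Real.cos θ - deriv f s * Real.sin θ, Real.sin θ + deriv f s * Real.cos θ)) s := by
      refine (hasDerivAt_const s t).prodMk ?_
      unfold pt
      refine HasDerivAt.prodMk ?_ ?_
      · have k := (((hasDerivAt_id s).mul_const (Real.cos θ)).const_add c.1).sub (hfs.mul_const (Real.sin θ))
        rw [one_mul] at k
        exact k
      · have k := (((hasDerivAt_id s).mul_const (Real.sin θ)).const_add c.2).add (hfs.mul_const (Real.cos θ))
        rw [one_mul] at k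
        exact k
    have h2 : HasDerivAt (fun s : ℝ => F (t, pt θ c s (f s)))
        (fderiv ℝ F (t, pt θ c s (f s)) (0, (Real.cos θ - deriv f s * Real.sin θ,
          Real.sin θ + deriv f s * Real.cos θ))) s :=
      HasFDerivAt.comp_hasDerivAt (x := s) (f := fun s : ℝ => ((t, pt θ c s (f s)) : ℝ × ℝ × ℝ))
        (hF (t, pt θ c s (f s))).hasFDerivAt h1
    have h3 : (fun s : ℝ => F (t, pt θ c s (f s))) =ᶠ[𝓝 s] fun _ => 0 := by
      have h4 : ∀ᶠ s' in 𝓝 s, |s'| < min η δ := (continuous_abs.tendsto s).eventually (gt_mem_nhds hs)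
      filter_upwards [h4] with s' hs'
      exact hz t _ (hfr s' hs')
    have h4 := (h2.congr_of_eventuallyEq h3.symm).unique (hasDerivAt_const s 0)
    rw [TG_fderiv] at h4
    exact h4

end NS
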